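import Mathlib

set_option autoImplicit false

namespace Pool.Agent.H8.Wij

universe u

/-- The nonempty closed subsets of `X`. -/
def Hyper (X : Type u) [TopologicalSpace X] : Type u := {A : Set X // IsClosed A ∧ A.Nonempty}

/-- The Wijsman topology of the metric of `X`: the weakest topology on `Hyper X` making all maps
`A ↦ d(x, A)`, `x ∈ X`, continuous. -/
@[reducible] noncomputable def wijsman (X : Type u) [MetricSpace X] : TopologicalSpace (Hyper X) :=
  ⨅ x : X, TopologicalSpace.induced (fun A : Hyper X => Metric.infDist x A.1) inferInstance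

/-- The list of the moves of player beta in the rounds `0, …, n`. -/
def history {Y : Type u} (y : ℕ → Y) (U : ℕ → Set Y) (n : ℕ) : List (Y × Set Y) :=
  (List.range (n + 1)).map (fun i => (y i, U i))

/-- In the rounds `0, …, n`, beta obeys the rules against the strategy `σ` of alpha: `U k` is open
and contains `y k`, and `U (j + 1)` is contained in the reply of alpha in round `j`. -/
def BetaLegal {Y : Type u} (t : TopologicalSpace Y) (σ : List (Y × Set Y) → Set Y)
    (y : ℕ → Y) (U : ℕ → Set Y) (n : ℕ) : Prop :=
  (∀ k ≤ n, IsOpen (U k) ∧ y k ∈ U k) ∧ ∀ j < n, U (j + 1) ⊆ σ (history y U j)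

/-- `Y` is strongly Choquet: player alpha has a winning strategy `σ` in the strong Choquet game.
The strategy computes the reply of alpha in round `n` from all the moves `(y i, U i)`, `i ≤ n`, of
beta. As long as beta has obeyed the rules, the reply of alpha obeys the rules, and if beta
obeys the rules for ever then the intersection of the sets played by alpha is nonempty. -/
def StronglyChoquet (Y : Type u) (t : TopologicalSpace Y) : Prop :=
  ∃ σ : List (Y × Set Y) → Set Y, ∀ (y : ℕ → Y) (U : ℕ → Set Y),
    (∀ n, BetaLegal t σ y U n →
      IsOpen (σ (history y U n)) ∧ y n ∈ σ (history y U n) ∧ σ (history y U n) ⊆ U n) ∧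
    ((∀ n, BetaLegal t σ y U n) → (⋂ n, σ (history y U n)).Nonempty)

end Pool.Agent.H8.Wij
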