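import Mathlib
import Pool.Agent.H8.Wij.Defs

set_option autoImplicit false

namespace Pool.Agent.H8.Wij

universe u

open Metric Set Topology

section
variable {X : Type u} [MetricSpace X]

theorem continuous_infDist_wij (x : X) :
    @Continuous (Hyper X) ℝ (wijsman X) _ (fun A => infDist x A.1) := by
  rw [continuous_iff_le_induced]
  exact iInf_le _ x

theorem isOpen_lt (x : X) (s : ℝ) : IsOpen[wijsman X] {A : Hyper X | s < infDist x A.1} := by
  let _ := wijsman X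
  exact _root_.isOpen_lt continuous_const (continuous_infDist_wij x)

theorem isOpen_gt (x : X) (s : ℝ) : IsOpen[wijsman X] {A : Hyper X | infDist x A.1 < s} := by
  let _ := wijsman X
  exact _root_.isOpen_lt (continuous_infDist_wij x) continuous_const

theorem isOpen_hit (G : Set X) (hG : IsOpen G) :
    IsOpen[wijsman X] {A : Hyper X | (A.1 ∩ G).Nonempty} := by
  let _ := wijsman X
  rw [isOpen_iff_forall_mem_open]
  rintro A ⟨a, ha, haG⟩
  obtain ⟨r, hr, hrG⟩ := Metric.isOpen_iff.1 hG a haG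
  refine ⟨{B : Hyper X | infDist a B.1 < r}, ?_, isOpen_gt a r, ?_⟩
  · intro B hB
    obtain ⟨b, hb, hb'⟩ := (infDist_lt_iff B.2.2).1 hB
    refine ⟨b, hb, hrG ?_⟩
    rw [mem_ball, dist_comm]
    exact hb'
  · change infDist a A.1 < r
    rw [infDist_zero_of_mem ha]
    exact hr

theorem basic_nhd (U : Set (Hyper X)) (hU : IsOpen[wijsman X] U) (A : Hyper X) (hA : A ∈ U) :
    ∃ (I : Set X) (ε : X → ℝ), I.Finite ∧ (∀ x ∈ I, 0 < ε x) ∧
      ∀ B : Hyper X, (∀ x ∈ I, |infDist x B.1 - infDist x A.1| < ε x) → B ∈ U := by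
  let _ := wijsman X
  have h1 : U ∈ @nhds _ (wijsman X) A := hU.mem_nhds hA
  rw [nhds_iInf, Filter.mem_iInf] at h1
  obtain ⟨I, hI, V, hV, rfl⟩ := h1
  have h2 : ∀ i : I, ∃ ε : ℝ, 0 < ε ∧ ∀ B : Hyper X,
      |infDist i.1 B.1 - infDist i.1 A.1| < ε → B ∈ V i := by
    intro i
    have := hV i
    rw [nhds_induced, Filter.mem_comap] at this
    obtain ⟨t, ht, htV⟩ := this
    obtain ⟨ε, hε, hεt⟩ := Metric.mem_nhds_iff.1 ht
    refine ⟨ε, hε, fun B hB => htV (hεt ?_)⟩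
    rw [mem_ball, Real.dist_eq]
    exact hB
  choose ε hε1 hε2 using h2
  classical
  refine ⟨I, fun x => if h : x ∈ I then ε ⟨x, h⟩ else 1, hI, ?_, ?_⟩
  · intro x hx
    simp only [hx, dif_pos]
    exact hε1 _
  · intro B hB
    rw [mem_iInter]
    intro i
    apply hε2 i B
    have := hB i.1 i.2
    simpa using this

/-- a state: the open sets that must be hit and the distance bounds -/
structure St (X : Type u) where
  Gs : Set (Set X)
  Ts : Set (X × ℝ)

/-- the open set given by a state -/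
def out (s : St X) : Set (Hyper X) :=
  {A | (∀ G ∈ s.Gs, (A.1 ∩ G).Nonempty) ∧ ∀ p ∈ s.Ts, p.2 < infDist p.1 A.1}

/-- validity -/
def Valid (s : St X) : Prop := s.Gs.Finite ∧ s.Ts.Finite ∧ ∀ G ∈ s.Gs, IsOpen G

theorem isOpen_out (s : St X) (hs : Valid s) : IsOpen[wijsman X] (out s) := by
  let _ := wijsman X
  obtain ⟨h1, h2, h3⟩ := hs
  have e : out s = (⋂ G ∈ s.Gs, {A : Hyper X | (A.1 ∩ G).Nonempty}) ∩
      ⋂ p ∈ s.Ts, {A : Hyper X | p.2 < infDist p.1 A.1} := by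
    ext A
    simp [out]
  rw [e]
  refine IsOpen.inter ?_ ?_
  · exact h1.isOpen_biInter (fun G hG => isOpen_hit G (h3 G hG))
  · exact h2.isOpen_biInter (fun p _ => isOpen_lt p.1 p.2)

variable {Z : Type u} [MetricSpace Z] (h : X ≃ₜ Z)

/-- the relation between consecutive states -/
def Refines (n : ℕ) (s s' : St X) : Prop :=
  (∀ G ∈ s.Gs, ∃ G' ∈ s'.Gs, closure G' ⊆ G) ∧
  (s'.Gs.Nonempty) ∧
  (∀ G ∈ s'.Gs, G.Nonempty ∧ ∀ a ∈ G, ∀ b ∈ G, dist (h a) (h b) ≤ (1 / 2) ^ n) ∧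
  (∀ p ∈ s.Ts, ∃ q ∈ s'.Ts, q.1 = p.1 ∧ p.2 < q.2) ∧
  (∀ G ∈ s'.Gs, ∀ p ∈ s'.Ts, ∀ y ∈ G, p.2 < dist p.1 y)

theorem small_nhd (n : ℕ) (A : Hyper X) (Ts : Set (X × ℝ)) (hT : Ts.Finite)
    (hTA : ∀ p ∈ Ts, p.2 < infDist p.1 A.1) (a : X) (ha : a ∈ A.1) (W : Set X) (hW : IsOpen W)
    (haW : a ∈ W) :
    ∃ G : Set X, IsOpen G ∧ a ∈ G ∧ closure G ⊆ W ∧
      (∀ b ∈ G, ∀ c ∈ G, dist (h b) (h c) ≤ (1 / 2) ^ n) ∧
      ∀ p ∈ Ts, ∀ y ∈ G, p.2 < dist p.1 y := by
  let O : Set X := W ∩ h ⁻¹' (ball (h a) ((1 / 2) ^ n / 2)) ∩ ⋂ p ∈ Ts, {y | p.2 < dist p.1 y}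
  have hO : IsOpen O := by
    refine (hW.inter (isOpen_ball.preimage h.continuous)).inter ?_
    refine hT.isOpen_biInter (fun p _ => ?_)
    exact _root_.isOpen_lt continuous_const (continuous_const.dist continuous_id)
  have haO : a ∈ O := by
    refine ⟨⟨haW, mem_ball_self (by positivity)⟩, ?_⟩
    simp only [mem_iInter]
    intro p hp
    exact (hTA p hp).trans_le (infDist_le_dist_of_mem ha)
  obtain ⟨δ, hδ, hδO⟩ := Metric.nhds_basis_closedBall.mem_iff.1 (hO.mem_nhds haO)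
  refine ⟨ball a δ, isOpen_ball, mem_ball_self hδ, ?_, ?_, ?_⟩
  · exact closure_ball_subset_closedBall.trans (hδO.trans fun y hy => hy.1.1)
  · intro b hb c hc
    have hb' := (hδO (ball_subset_closedBall hb)).1.2
    have hc' := (hδO (ball_subset_closedBall hc)).1.2
    simp only [mem_preimage, mem_ball] at hb' hc'
    have := dist_triangle_right (h b) (h c) (h a)
    linarith
  · intro p hp y hy
    have := (hδO (ball_subset_closedBall hy)).2
    simp only [mem_iInter] at this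
    exact this p hp

theorem step (n : ℕ) (s : St X) (hs : Valid s) (A : Hyper X) (U : Set (Hyper X))
    (hU : IsOpen[wijsman X] U) (hA : A ∈ U) (hUs : U ⊆ out s) :
    ∃ s' : St X, Valid s' ∧ A ∈ out s' ∧ out s' ⊆ U ∧ Refines h n s s' := by
  obtain ⟨I, ε, hI, hε, hB⟩ := basic_nhd U hU A hA
  obtain ⟨hs1, hs2, hs3⟩ := hs
  have hAs : A ∈ out s := hUs hA
  obtain ⟨hAs1, hAs2⟩ := hAs
  let Ts' : Set (X × ℝ) := ((fun p : X × ℝ => (p.1, (p.2 + infDist p.1 A.1) / 2)) '' s.Ts) ∪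
    ((fun x => (x, infDist x A.1 - ε x)) '' I)
  have hT' : Ts'.Finite := (hs2.image _).union (hI.image _)
  have hTA : ∀ p ∈ Ts', p.2 < infDist p.1 A.1 := by
    rintro p (⟨q, hq, rfl⟩ | ⟨x, hx, rfl⟩)
    · have := hAs2 q hq
      simp only
      linarith
    · have := hε x hx
      simp only
      linarith
  have h1 : ∀ G ∈ s.Gs, ∃ G' : Set X, IsOpen G' ∧ (A.1 ∩ G').Nonempty ∧ closure G' ⊆ G ∧
      (∀ b ∈ G', ∀ c ∈ G', dist (h b) (h c) ≤ (1 / 2) ^ n) ∧
      ∀ p ∈ Ts', ∀ y ∈ G', p.2 < dist p.1 y := by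
    intro G hG
    obtain ⟨a, ha, haG⟩ := hAs1 G hG
    obtain ⟨G', g1, g2, g3, g4, g5⟩ := small_nhd h n A Ts' hT' hTA a ha G (hs3 G hG) haG
    exact ⟨G', g1, ⟨a, ha, g2⟩, g3, g4, g5⟩
  have h2 : ∀ x ∈ I, ∃ G' : Set X, IsOpen G' ∧ (A.1 ∩ G').Nonempty ∧
      closure G' ⊆ {y | dist x y < infDist x A.1 + ε x} ∧
      (∀ b ∈ G', ∀ c ∈ G', dist (h b) (h c) ≤ (1 / 2) ^ n) ∧
      ∀ p ∈ Ts', ∀ y ∈ G', p.2 < dist p.1 y := by
    intro x hx
    have : infDist x A.1 < infDist x A.1 + ε x := by linarith [hε x hx]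
    obtain ⟨a, ha, haG⟩ := (infDist_lt_iff A.2.2).1 this
    have ho : IsOpen {y | dist x y < infDist x A.1 + ε x} :=
      _root_.isOpen_lt (continuous_const.dist continuous_id) continuous_const
    obtain ⟨G', g1, g2, g3, g4, g5⟩ := small_nhd h n A Ts' hT' hTA a ha _ ho haG
    exact ⟨G', g1, ⟨a, ha, g2⟩, g3, g4, g5⟩
  obtain ⟨a0, ha0⟩ := A.2.2
  obtain ⟨G0, g1, g2, -, g4, g5⟩ := small_nhd h n A Ts' hT' hTA a0 ha0 univ isOpen_univ (mem_univ _)
  choose! φ p1 p2 p3 p4 p5 using h1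
  choose! ψ q1 q2 q3 q4 q5 using h2
  let Gs' : Set (Set X) := φ '' s.Gs ∪ ψ '' I ∪ {G0}
  have key : ∀ G ∈ Gs', IsOpen G ∧ (A.1 ∩ G).Nonempty ∧
      (∀ b ∈ G, ∀ c ∈ G, dist (h b) (h c) ≤ (1 / 2) ^ n) ∧
      ∀ p ∈ Ts', ∀ y ∈ G, p.2 < dist p.1 y := by
    rintro G ((⟨H, hH, rfl⟩ | ⟨x, hx, rfl⟩) | hG)
    · exact ⟨p1 H hH, p2 H hH, p4 H hH, p5 H hH⟩
    · exact ⟨q1 x hx, q2 x hx, q4 x hx, q5 x hx⟩
    · rw [mem_singleton_iff] at hG
      subst hG
      exact ⟨g1, ⟨a0, ha0, g2⟩, g4, g5⟩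
  refine ⟨⟨Gs', Ts'⟩, ⟨?_, hT', fun G hG => (key G hG).1⟩, ⟨fun G hG => (key G hG).2.1, hTA⟩, ?_, ?_⟩
  · exact ((hs1.image _).union (hI.image _)).union (finite_singleton _)
  · rintro B ⟨hB1, hB2⟩
    apply hB
    intro x hx
    have e1 := hB2 (x, infDist x A.1 - ε x) (Or.inr ⟨x, hx, rfl⟩)
    obtain ⟨b, hb, hb'⟩ := hB1 (ψ x) (Or.inl (Or.inr ⟨x, hx, rfl⟩))
    have e2 : dist x b < infDist x A.1 + ε x := q3 x hx (subset_closure hb')
    have e3 := infDist_le_dist_of_mem (x := x) hb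
    simp only at e1
    rw [abs_lt]
    constructor <;> linarith
  · refine ⟨?_, ⟨G0, Or.inr rfl⟩, ?_, ?_, ?_⟩
    · intro G hG
      exact ⟨φ G, Or.inl (Or.inl ⟨G, hG, rfl⟩), p3 G hG⟩
    · intro G hG
      exact ⟨(key G hG).2.1.mono inter_subset_right, (key G hG).2.2.1⟩
    · intro p hp
      refine ⟨_, Or.inl ⟨p, hp, rfl⟩, rfl, ?_⟩
      have := hAs2 p hp
      simp only
      linarith
    · intro G hG
      exact (key G hG).2.2.2

theorem limit [CompleteSpace Z] (s : ℕ → St X)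
    (hs : ∀ n, Refines h (n + 1) (s n) (s (n + 1)))
    (h0 : (s 0).Gs.Nonempty ∧ ∀ G ∈ (s 0).Gs, G.Nonempty ∧
      ∀ a ∈ G, ∀ b ∈ G, dist (h a) (h b) ≤ (1 / 2) ^ 0) :
    ∃ A : Hyper X, ∀ n, A ∈ out (s n) := by
  have hsm : ∀ n, ∀ G ∈ (s n).Gs, G.Nonempty ∧
      ∀ a ∈ G, ∀ b ∈ G, dist (h a) (h b) ≤ (1 / 2) ^ n := by
    intro n
    cases n with
    | zero => exact h0.2
    | succ n => exact (hs n).2.2.1
  let P : Set X := {p | ∃ m0, ∀ m ≥ m0, ∃ G ∈ (s m).Gs, p ∈ G}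
  have hP : ∀ n, ∀ G ∈ (s n).Gs, (P ∩ G).Nonempty := by
    intro n G hG
    let g : (k : ℕ) → {H : Set X // H ∈ (s (n + k)).Gs} := fun k =>
      Nat.rec (motive := fun k => {H : Set X // H ∈ (s (n + k)).Gs}) ⟨G, hG⟩
        (fun k H => ⟨((hs (n + k)).1 H.1 H.2).choose, ((hs (n + k)).1 H.1 H.2).choose_spec.1⟩) k
    have hg : ∀ k, closure (g (k + 1)).1 ⊆ (g k).1 := fun k =>
      ((hs (n + k)).1 (g k).1 (g k).2).choose_spec.2
    have hanti : ∀ k l, k ≤ l → (g l).1 ⊆ (g k).1 := by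
      intro k l hkl
      induction l, hkl using Nat.le_induction with
      | base => exact subset_rfl
      | succ l _ ih => exact (subset_closure.trans (hg l)).trans ih
    have hx : ∀ k, ∃ x, x ∈ (g k).1 := fun k => (hsm (n + k) (g k).1 (g k).2).1
    choose x hx using hx
    have hcau : CauchySeq (fun k => h (x k)) := by
      refine cauchySeq_of_le_tendsto_0 (fun k => (1 / 2 : ℝ) ^ k) ?_ ?_
      · intro a b N hNa hNb
        have := (hsm (n + N) (g N).1 (g N).2).2 (x a) (hanti N a hNa (hx a)) (x b)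
          (hanti N b hNb (hx b))
        refine this.trans ?_
        exact pow_le_pow_of_le_one (by norm_num) (by norm_num) (by omega)
      · exact tendsto_pow_atTop_nhds_zero_of_lt_one (by norm_num) (by norm_num)
    obtain ⟨z, hz⟩ := cauchySeq_tendsto_of_complete hcau
    have hlim : Filter.Tendsto x Filter.atTop (nhds (h.symm z)) := by
      have := (h.symm.continuous.tendsto z).comp hz
      refine this.congr (fun k => ?_)
      simp
    have hmem : ∀ k, h.symm z ∈ (g k).1 := by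
      intro k
      apply hg k
      refine mem_closure_of_tendsto hlim ?_
      filter_upwards [Filter.eventually_ge_atTop (k + 1)] with l hl
      exact hanti (k + 1) l hl (hx l)
    refine ⟨h.symm z, ⟨n, fun m hm => ?_⟩, hmem 0⟩
    obtain ⟨k, rfl⟩ := Nat.exists_eq_add_of_le hm
    exact ⟨(g k).1, (g k).2, hmem k⟩
  have hPne : P.Nonempty := by
    obtain ⟨G, hG⟩ := h0.1
    exact (hP 0 G hG).mono inter_subset_left
  refine ⟨⟨closure P, isClosed_closure, hPne.closure⟩, fun n => ⟨?_, ?_⟩⟩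
  · intro G hG
    obtain ⟨p, hp, hpG⟩ := hP n G hG
    exact ⟨p, subset_closure hp, hpG⟩
  · intro p hp
    obtain ⟨q, hq, hq1, hq2⟩ := (hs n).2.2.2.1 p hp
    refine hq2.trans_le ?_
    change q.2 ≤ infDist p.1 (closure P)
    rw [infDist_closure, le_infDist hPne]
    rintro y ⟨m0, hm0⟩
    have hmono : ∀ m, n + 1 ≤ m → ∃ q' ∈ (s m).Ts, q'.1 = p.1 ∧ q.2 ≤ q'.2 := by
      intro m hm
      induction m, hm using Nat.le_induction with
      | base => exact ⟨q, hq, hq1, le_rfl⟩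
      | succ m _ ih =>
        obtain ⟨q', h1, h2, h3⟩ := ih
        obtain ⟨q'', e1, e2, e3⟩ := (hs m).2.2.2.1 q' h1
        exact ⟨q'', e1, e2.trans h2, h3.trans e3.le⟩
    have hm1 : n + 1 ≤ max m0 (n + 1) := le_max_right _ _
    obtain ⟨q', e1, e2, e3⟩ := hmono _ hm1
    obtain ⟨G, hG, hyG⟩ := hm0 (max m0 (n + 1)) (le_max_left _ _)
    obtain ⟨m, hm⟩ : ∃ m, max m0 (n + 1) = m + 1 := ⟨max m0 (n + 1) - 1, by omega⟩
    rw [hm] at e1 hG
    have := (hs m).2.2.2.2 G hG q' e1 y hyG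
    rw [← e2]
    exact e3.trans this.le

/-- the goodness of a reply -/
def Good (n : ℕ) (s : St X) (p : Hyper X × Set (Hyper X)) (s' : St X) : Prop :=
  Valid s' ∧ p.1 ∈ out s' ∧ out s' ⊆ p.2 ∧ Refines h n s s'

open Classical in
/-- the step function -/
noncomputable def stp (sn : St X × ℕ) (p : Hyper X × Set (Hyper X)) : St X × ℕ :=
  (if hh : ∃ s', Good h sn.2 sn.1 p s' then hh.choose else sn.1, sn.2 + 1)

/-- state after a list of moves -/
noncomputable def stOf (l : List (Hyper X × Set (Hyper X))) : St X × ℕ :=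
  l.foldl (stp h) (⟨∅, ∅⟩, 0)

theorem stOf_snd (l : List (Hyper X × Set (Hyper X))) : (stOf h l).2 = l.length := by
  unfold stOf
  induction l using List.reverseRecOn with
  | nil => rfl
  | append_singleton l a ih =>
    rw [List.foldl_append, List.length_append]
    simp only [List.foldl_cons, List.foldl_nil, List.length_singleton]
    rw [← ih]
    rfl

theorem history_succ {Y : Type u} (y : ℕ → Y) (U : ℕ → Set Y) (n : ℕ) :
    history y U (n + 1) = history y U n ++ [(y (n + 1), U (n + 1))] := by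
  unfold history
  rw [List.range_succ, List.map_append]
  rfl

theorem history_length {Y : Type u} (y : ℕ → Y) (U : ℕ → Set Y) (n : ℕ) :
    (history y U n).length = n + 1 := by
  simp [history]

end

open Classical in
theorem main (X : Type u) [mX : MetricSpace X] [TopologicalSpace.IsCompletelyMetrizableSpace X] :
    StronglyChoquet (Hyper X) (wijsman X) := by
  obtain ⟨Z, mZ, cZ, ⟨h⟩⟩ : ∃ (Z : Type u) (_ : MetricSpace Z), CompleteSpace Z ∧
      Nonempty (X ≃ₜ Z) := by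
    obtain ⟨m, hm, hc⟩ := TopologicalSpace.IsCompletelyMetrizableSpace.complete (X := X)
    refine ⟨X, m, hc, ⟨?_⟩⟩
    refine @Homeomorph.mk X X mX.toUniformSpace.toTopologicalSpace
      m.toUniformSpace.toTopologicalSpace (Equiv.refl X) ?_ ?_
    · rw [hm]; exact @continuous_id X mX.toUniformSpace.toTopologicalSpace
    · rw [hm]; exact @continuous_id X mX.toUniformSpace.toTopologicalSpace
  refine ⟨fun l => out (stOf h l).1, fun y U => ?_⟩
  let s : ℕ → St X := fun n => (stOf h (history y U n)).1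
  have claim0 : BetaLegal (wijsman X) (fun l => out (stOf h l).1) y U 0 →
      Good h 0 ⟨∅, ∅⟩ (y 0, U 0) (s 0) := by
    intro hb
    have hv : Valid (⟨∅, ∅⟩ : St X) := ⟨finite_empty, finite_empty, by simp⟩
    have hex : ∃ s', Good h 0 ⟨∅, ∅⟩ (y 0, U 0) s' := by
      obtain ⟨s', a, b, c, d⟩ := step h 0 ⟨∅, ∅⟩ hv (y 0) (U 0) (hb.1 0 le_rfl).1 (hb.1 0 le_rfl).2
        (by intro A _; simp [out])
      exact ⟨s', a, b, c, d⟩
    have e : s 0 = hex.choose := by
      change (stp h (⟨∅, ∅⟩, 0) (y 0, U 0)).1 = _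
      unfold stp
      simp only [hex, dif_pos]
    rw [e]
    exact hex.choose_spec
  have claim : ∀ n, BetaLegal (wijsman X) (fun l => out (stOf h l).1) y U (n + 1) → Valid (s n) →
      Good h (n + 1) (s n) (y (n + 1), U (n + 1)) (s (n + 1)) := by
    intro n hb hv
    have hex : ∃ s', Good h (n + 1) (s n) (y (n + 1), U (n + 1)) s' := by
      obtain ⟨s', a, b, c, d⟩ := step h (n + 1) (s n) hv (y (n + 1)) (U (n + 1))
        (hb.1 _ le_rfl).1 (hb.1 _ le_rfl).2 (hb.2 n (Nat.lt_succ_self n))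
      exact ⟨s', a, b, c, d⟩
    have e : s (n + 1) = hex.choose := by
      change (stOf h (history y U (n + 1))).1 = _
      rw [history_succ]
      unfold stOf
      rw [List.foldl_append]
      simp only [List.foldl_cons, List.foldl_nil]
      change (stp h (stOf h (history y U n)) (y (n + 1), U (n + 1))).1 = _
      unfold stp
      have e2 : (stOf h (history y U n)).2 = n + 1 := by rw [stOf_snd, history_length]
      rw [e2]
      change (if hh : ∃ s', Good h (n + 1) (s n) (y (n + 1), U (n + 1)) s' then hh.choose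
        else (s n)) = _
      simp only [hex, dif_pos]
    rw [e]
    exact hex.choose_spec
  have mono : ∀ n, BetaLegal (wijsman X) (fun l => out (stOf h l).1) y U (n + 1) →
      BetaLegal (wijsman X) (fun l => out (stOf h l).1) y U n := by
    intro n hb
    exact ⟨fun k hk => hb.1 k (by omega), fun j hj => hb.2 j (by omega)⟩
  have hvalid : ∀ n, BetaLegal (wijsman X) (fun l => out (stOf h l).1) y U n →
      Valid (s n) ∧ y n ∈ out (s n) ∧ out (s n) ⊆ U n := by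
    intro n
    induction n with
    | zero =>
      intro hb
      have := claim0 hb
      exact ⟨this.1, this.2.1, this.2.2.1⟩
    | succ n ih =>
      intro hb
      have := claim n hb (ih (mono n hb)).1
      exact ⟨this.1, this.2.1, this.2.2.1⟩
  constructor
  · intro n hb
    obtain ⟨a, b, c⟩ := hvalid n hb
    exact ⟨isOpen_out _ a, b, c⟩
  · intro hb
    obtain ⟨A, hA⟩ := limit h s (fun n => (claim n (hb (n + 1)) (hvalid n (hb n)).1).2.2.2)
      ⟨(claim0 (hb 0)).2.2.2.2.1, (claim0 (hb 0)).2.2.2.2.2.1⟩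
    exact ⟨A, mem_iInter.2 hA⟩

end Pool.Agent.H8.Wij
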